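import Mathlib

/-!
Polynomials whose support is closed under exchange with few directions, up to a sparse polynomial:
few minimal monomials for generic weights.
-/

set_option autoImplicit false

namespace Pool.Agent.TH585.SP

open Finset

/-- The pairing of an integer weight and an exponent vector. -/
def wt {n : ℕ} (w : Fin n → ℤ) (b : Fin n →₀ ℕ) : ℤ := ∑ i, w i * (b i : ℤ)

/-- The difference of two exponent vectors. -/
def dif {n : ℕ} (r p : Fin n →₀ ℕ) : Fin n → ℤ := fun i => (r i : ℤ) - (p i : ℤ)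

/-- The distance of two exponent vectors. -/
def dist1 {n : ℕ} (p q : Fin n →₀ ℕ) : ℕ := ∑ i, ((p i : ℤ) - (q i : ℤ)).natAbs

/-- Exchange with the directions `D`: for two different points `p`, `q` of `A` there are `r ≠ p` and
`r'` in `A` such that `p + q = r + r'`, `r - p` is in `D` and `r'` is closer to `p` than `q`. -/
def Exchange {n : ℕ} (D : Set (Fin n → ℤ)) (A : Set (Fin n →₀ ℕ)) : Prop :=
  ∀ p ∈ A, ∀ q ∈ A, p ≠ q → ∃ r ∈ A, ∃ r' ∈ A, p + q = r + r' ∧ r ≠ p ∧ dif r p ∈ D ∧
    dist1 p r' < dist1 p q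

theorem wt_add {n : ℕ} (w : Fin n → ℤ) (a b : Fin n →₀ ℕ) : wt w (a + b) = wt w a + wt w b := by
  unfold wt
  rw [← Finset.sum_add_distrib]
  refine Finset.sum_congr rfl fun i _ => ?_
  rw [Finsupp.add_apply]
  push_cast
  ring

theorem wt_dif {n : ℕ} (w : Fin n → ℤ) (r p : Fin n →₀ ℕ) :
    ∑ i, w i * dif r p i = wt w r - wt w p := by
  unfold wt dif
  rw [← Finset.sum_sub_distrib]
  refine Finset.sum_congr rfl fun i _ => ?_
  ring

/-- Every point which is not lighter than another one can be moved without increasing the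
weight. -/
theorem improve {n : ℕ} {D : Set (Fin n → ℤ)} {A : Set (Fin n →₀ ℕ)} (hA : Exchange D A)
    (w : Fin n → ℤ) : ∀ (N : ℕ) (p q : Fin n →₀ ℕ), dist1 p q ≤ N → p ∈ A → q ∈ A → p ≠ q →
      wt w q ≤ wt w p → ∃ r ∈ A, r ≠ p ∧ dif r p ∈ D ∧ wt w r ≤ wt w p := by
  intro N
  induction N with
  | zero =>
    intro p q h _ _ hpq _
    exfalso
    apply hpq
    ext i
    have h1 : dist1 p q = 0 := Nat.le_zero.1 h
    unfold dist1 at h1
    rw [Finset.sum_eq_zero_iff] at h1
    have h2 := h1 i (mem_univ i)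
    rw [Int.natAbs_eq_zero] at h2
    omega
  | succ N ih =>
    intro p q h hp hq hpq hw
    obtain ⟨r, hr, r', hr', hsum, hrp, hD, hd⟩ := hA p hp q hq hpq
    by_cases hle : wt w r ≤ wt w p
    · exact ⟨r, hr, hrp, hD, hle⟩
    · push Not at hle
      have h1 := congrArg (wt w) hsum
      rw [wt_add, wt_add] at h1
      have h2 : wt w r' < wt w q := by linarith
      refine ih p r' (by omega) hp hr' ?_ (by linarith)
      rintro rfl
      linarith

/-- The points of minimal weight. -/
def mins {n : ℕ} (w : Fin n → ℤ) (B : Finset (Fin n →₀ ℕ)) : Finset (Fin n →₀ ℕ) :=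
  B.filter fun b => ∀ b' ∈ B, wt w b ≤ wt w b'

theorem mins_nonempty {n : ℕ} (w : Fin n → ℤ) {B : Finset (Fin n →₀ ℕ)} (hB : B.Nonempty) :
    (mins w B).Nonempty := by
  obtain ⟨b, hb, h⟩ := Finset.exists_min_image B (wt w) hB
  exact ⟨b, Finset.mem_filter.2 ⟨hb, h⟩⟩

/-- `w` does not vanish on the nonzero vectors of `D` with entries at most `e`. -/
def Gen {n : ℕ} (e : ℕ) (D : Finset (Fin n → ℤ)) (w : Fin n → ℤ) : Prop :=
  ∀ v ∈ D, v ≠ 0 → (∀ i, |v i| ≤ e) → ∑ i, w i * v i ≠ 0

/-- For a generic weight there are few monomials of minimal weight. -/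
theorem few_mins {n e r : ℕ} {D : Finset (Fin n → ℤ)} {A : Fin r → Set (Fin n →₀ ℕ)}
    (hA : ∀ c, Exchange (D : Set (Fin n → ℤ)) (A c)) (hAe : ∀ c, ∀ a ∈ A c, ∀ i, a i ≤ e)
    {w : Fin n → ℤ} (hw : Gen e D w) (B S : Finset (Fin n →₀ ℕ))
    (hBS : ∀ b, b ∉ S → (b ∈ B ↔ ∃ c, b ∈ A c)) :
    (mins w B).card ≤ (D.card + 1) * S.card + r := by
  classical
  have hne : ∀ c, ∀ p ∈ A c, ∀ r ∈ A c, r ≠ p → dif r p ∈ D → wt w r ≤ wt w p →
      wt w r < wt w p := by
    intro c p hp r hr hrp hD hle
    refine lt_of_le_of_ne hle fun h => ?_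
    refine hw (dif r p) hD ?_ ?_ ?_
    · intro h0
      apply hrp
      ext i
      have := congrFun h0 i
      unfold dif at this
      simp only [Pi.zero_apply] at this
      omega
    · intro i
      unfold dif
      have h1 := hAe c r hr i
      have h2 := hAe c p hp i
      rw [abs_le]
      constructor <;> omega
    · rw [wt_dif, h, sub_self]
  -- the set containing a minimum outside `S`
  have hcol : ∀ b, ∃ c : Option (Fin r), b ∈ mins w B → b ∉ S → ∃ c', c = some c' ∧ b ∈ A c' := by
    intro b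
    by_cases h : b ∈ mins w B ∧ b ∉ S
    · obtain ⟨c, hc⟩ := (hBS b h.2).1 (Finset.mem_filter.1 h.1).1
      exact ⟨some c, fun _ _ => ⟨c, rfl, hc⟩⟩
    · exact ⟨none, fun h1 h2 => absurd ⟨h1, h2⟩ h⟩
  choose col hcol using hcol
  -- the minima outside `S`
  set M := mins w B with hM
  set M1 := M.filter fun b => b ∈ S with hM1
  set M2 := (M.filter fun b => b ∉ S).filter fun b => ∀ c, col b = some c →
    ∀ a ∈ A c, wt w b ≤ wt w a with hM2
  set M3 := (M.filter fun b => b ∉ S).filter fun b => ¬ ∀ c, col b = some c →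
    ∀ a ∈ A c, wt w b ≤ wt w a with hM3
  have hsplit : M.card = M1.card + (M2.card + M3.card) := by
    rw [hM2, hM3, Finset.card_filter_add_card_filter_not, hM1,
      Finset.card_filter_add_card_filter_not]
  have c1 : M1.card ≤ S.card := by
    apply Finset.card_le_card
    intro b hb
    exact (Finset.mem_filter.1 hb).2
  have c2 : M2.card ≤ r := by
    have hle : M2.card ≤ ((Finset.univ : Finset (Fin r)).image (some : Fin r → Option (Fin r))).card := by
      apply Finset.card_le_card_of_injOn col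
      · intro b hb
        rw [Finset.mem_coe, hM2, Finset.mem_filter, Finset.mem_filter] at hb
        obtain ⟨c, hc, -⟩ := hcol b hb.1.1 hb.1.2
        rw [Finset.mem_coe, Finset.mem_image]
        exact ⟨c, mem_univ c, hc.symm⟩
      · intro p hp q hq hcc
        rw [Finset.mem_coe, hM2, Finset.mem_filter, Finset.mem_filter] at hp hq
        obtain ⟨c, hc, hpc⟩ := hcol p hp.1.1 hp.1.2
        obtain ⟨c', hc', hqc⟩ := hcol q hq.1.1 hq.1.2
        have hcc' : c' = c := by
          rw [hc, hc'] at hcc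
          exact (Option.some.inj hcc).symm
        subst hcc'
        by_contra hpq
        obtain ⟨r, hr, hrp, hD, hle⟩ := improve (hA c') w _ p q le_rfl hpc hqc hpq
          (hq.2 c' hc' p hpc)
        exact absurd (hne c' p hpc r hr hrp hD hle) (not_lt.2 (hp.2 c' hc r hr))
    refine hle.trans (Finset.card_image_le.trans ?_)
    simp
  have c3 : M3.card ≤ D.card * S.card := by
    have hex : ∀ b ∈ M3, ∃ r ∈ S, dif r b ∈ D := by
      intro b hb
      rw [hM3, Finset.mem_filter, Finset.mem_filter] at hb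
      obtain ⟨⟨hbM, hbS⟩, hbA⟩ := hb
      have hbmin := (Finset.mem_filter.1 hbM).2
      push Not at hbA
      obtain ⟨c, hc, a, ha, hlt⟩ := hbA
      obtain ⟨c', hc', hbc⟩ := hcol b hbM hbS
      have hcc : c = c' := by
        rw [hc] at hc'
        exact Option.some.inj hc'
      subst hcc
      have hba : b ≠ a := by rintro rfl; exact absurd hlt (lt_irrefl _)
      obtain ⟨r, hr, hrp, hD, hle⟩ := improve (hA c) w _ b a le_rfl hbc ha hba hlt.le
      have hlt' := hne c b hbc r hr hrp hD hle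
      refine ⟨r, ?_, hD⟩
      by_contra hrS
      have := hbmin r ((hBS r hrS).2 ⟨c, hr⟩)
      linarith
    choose! g hg1 hg2 using hex
    have hle : M3.card ≤ (D ×ˢ S).card := by
      apply Finset.card_le_card_of_injOn (fun b => (dif (g b) b, g b))
      · intro b hb
        rw [Finset.mem_coe, Finset.mem_product]
        exact ⟨hg2 b hb, hg1 b hb⟩
      · intro b hb b' hb' h
        simp only [Prod.mk.injEq] at h
        obtain ⟨h1, h2⟩ := h
        ext i
        have h3 := congrFun h1 i
        unfold dif at h3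
        rw [h2] at h3
        omega
    rwa [Finset.card_product] at hle
  calc M.card = M1.card + (M2.card + M3.card) := hsplit
    _ ≤ S.card + (r + D.card * S.card) := by omega
    _ = (D.card + 1) * S.card + r := by ring

/-- Weights `k ^ i mod p` which are generic for finitely many vectors. -/
theorem exists_weight {n p : ℕ} (hp : p.Prime) (V : Finset (Fin n → ℤ))
    (hV : ∀ v ∈ V, ∃ i, ¬ (p : ℤ) ∣ v i) (hcard : n * V.card < p) :
    ∃ k < p, ∀ v ∈ V, ∑ i : Fin n, ((k ^ (i : ℕ) % p : ℕ) : ℤ) * v i ≠ 0 := by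
  classical
  have : Fact p.Prime := ⟨hp⟩
  set P : (Fin n → ℤ) → Polynomial (ZMod p) := fun v =>
    ∑ i : Fin n, Polynomial.C ((v i : ℤ) : ZMod p) * Polynomial.X ^ (i : ℕ) with hP
  have hcoef : ∀ v (i : Fin n), (P v).coeff i = ((v i : ℤ) : ZMod p) := by
    intro v i
    rw [hP]
    simp only [Polynomial.finsetSum_coeff, Polynomial.coeff_C_mul, Polynomial.coeff_X_pow]
    rw [Finset.sum_eq_single i]
    · simp
    · intro j _ hji
      rw [if_neg (fun h => hji (Fin.ext h.symm)), mul_zero]
    · intro h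
      exact absurd (mem_univ i) h
  have hne : ∀ v ∈ V, P v ≠ 0 := by
    intro v hv h0
    obtain ⟨i, hi⟩ := hV v hv
    apply hi
    rw [← ZMod.intCast_zmod_eq_zero_iff_dvd, ← hcoef v i, h0, Polynomial.coeff_zero]
  have hdeg : ∀ v, (P v).natDegree ≤ n := by
    intro v
    apply Polynomial.natDegree_sum_le_of_forall_le
    intro i _
    refine (Polynomial.natDegree_C_mul_le _ _).trans ?_
    rw [Polynomial.natDegree_X_pow]
    exact i.isLt.le
  have hQ : ∏ v ∈ V, P v ≠ 0 := Finset.prod_ne_zero_iff.2 hne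
  have hQdeg : (∏ v ∈ V, P v).natDegree < (Finset.univ : Finset (ZMod p)).card := by
    rw [Finset.card_univ, ZMod.card]
    refine lt_of_le_of_lt (Polynomial.natDegree_prod_le _ _) ?_
    refine lt_of_le_of_lt (Finset.sum_le_card_nsmul _ _ n fun v _ => hdeg v) ?_
    rw [smul_eq_mul, mul_comm]
    exact hcard
  obtain ⟨x, hx⟩ : ∃ x : ZMod p, (∏ v ∈ V, P v).eval x ≠ 0 := by
    by_contra hcon
    push Not at hcon
    exact hQ (Polynomial.eq_zero_of_natDegree_lt_card_of_eval_eq_zero' _ Finset.univ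
      (fun x _ => hcon x) hQdeg)
  refine ⟨x.val, ZMod.val_lt x, fun v hv h0 => ?_⟩
  rw [Polynomial.eval_prod, Finset.prod_ne_zero_iff] at hx
  apply hx v hv
  have h1 := congrArg (Int.cast : ℤ → ZMod p) h0
  push_cast at h1
  rw [hP]
  simp only [Polynomial.eval_finsetSum, Polynomial.eval_mul, Polynomial.eval_C,
    Polynomial.eval_pow, Polynomial.eval_X]
  rw [← h1]
  refine Finset.sum_congr rfl fun i _ => ?_
  rw [ZMod.natCast_zmod_val]
  ring

end Pool.Agent.TH585.SP
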