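import Mathlib
import Pool.Agent.TH585.SP.Core

/-!
Examples of sets closed under exchange: `M`-convex sets, the points of an affine lattice in a box.
-/

set_option autoImplicit false

namespace Pool.Agent.TH585.SP

open Finset

/-- `M`-convex sets: if `q i < p i` then there is `j` with `p j < q j` such that `p - e_i + e_j` and
`q + e_i - e_j` are in `A`. -/
def MConvex {n : ℕ} (A : Set (Fin n →₀ ℕ)) : Prop :=
  ∀ p ∈ A, ∀ q ∈ A, ∀ i, q i < p i → ∃ j, p j < q j ∧ ∃ r ∈ A, ∃ r' ∈ A,
    r + Finsupp.single i 1 = p + Finsupp.single j 1 ∧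
    r' + Finsupp.single j 1 = q + Finsupp.single i 1

/-- The vectors `e_j - e_i`. -/
def unitMoves (n : ℕ) : Finset (Fin n → ℤ) :=
  (Finset.univ : Finset (Fin n × Fin n)).image fun ij => Pi.single ij.2 1 - Pi.single ij.1 1

theorem card_unitMoves (n : ℕ) : (unitMoves n).card ≤ n ^ 2 := by
  unfold unitMoves
  refine Finset.card_image_le.trans ?_
  rw [Finset.card_univ, Fintype.card_prod, Fintype.card_fin, sq]

theorem exchange_of_mconvex {n : ℕ} {A : Set (Fin n →₀ ℕ)} (hA : MConvex A) :
    Exchange (unitMoves n : Set (Fin n → ℤ)) A := by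
  classical
  intro p hp q hq hpq
  obtain ⟨i, hi⟩ : ∃ i, q i < p i := by
    obtain ⟨i, hi⟩ := DFunLike.ne_iff.1 hpq
    rcases lt_or_gt_of_ne hi with h | h
    · obtain ⟨j, hj, -⟩ := hA q hq p hp i h
      exact ⟨j, hj⟩
    · exact ⟨i, h⟩
  obtain ⟨j, hj, r, hr, r', hr', h1, h2⟩ := hA p hp q hq i hi
  have hij : i ≠ j := by
    rintro rfl
    omega
  have e1 : ∀ k, (r k : ℤ) = p k + (if j = k then 1 else 0) - (if i = k then 1 else 0) := by
    intro k
    have := DFunLike.congr_fun h1 k
    rw [Finsupp.add_apply, Finsupp.add_apply, Finsupp.single_apply, Finsupp.single_apply] at this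
    have h3 : ((r k : ℕ) : ℤ) + (if i = k then 1 else 0) = p k + (if j = k then 1 else 0) := by
      exact_mod_cast this
    linarith
  have e2 : ∀ k, (r' k : ℤ) = q k + (if i = k then 1 else 0) - (if j = k then 1 else 0) := by
    intro k
    have := DFunLike.congr_fun h2 k
    rw [Finsupp.add_apply, Finsupp.add_apply, Finsupp.single_apply, Finsupp.single_apply] at this
    have h3 : ((r' k : ℕ) : ℤ) + (if j = k then 1 else 0) = q k + (if i = k then 1 else 0) := by
      exact_mod_cast this
    linarith
  refine ⟨r, hr, r', hr', ?_, ?_, ?_, ?_⟩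
  · ext k
    rw [Finsupp.add_apply, Finsupp.add_apply]
    have := e1 k
    have := e2 k
    omega
  · intro h
    have := e1 i
    rw [h, if_neg hij.symm, if_pos rfl] at this
    omega
  · rw [Finset.mem_coe]
    unfold unitMoves
    rw [Finset.mem_image]
    refine ⟨(i, j), mem_univ _, ?_⟩
    funext k
    unfold dif
    rw [e1 k, Pi.sub_apply, Pi.single_apply, Pi.single_apply]
    simp only [eq_comm (a := k)]
    ring
  · unfold dist1
    apply Finset.sum_lt_sum
    · intro k _
      rw [e2 k]
      by_cases hk : i = k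
      · subst hk
        rw [if_pos rfl, if_neg hij.symm]
        omega
      · by_cases hk' : j = k
        · subst hk'
          rw [if_neg hk, if_pos rfl]
          omega
        · rw [if_neg hk, if_neg hk']
          omega
    · refine ⟨i, mem_univ i, ?_⟩
      rw [e2 i, if_pos rfl, if_neg hij.symm]
      omega

/-- The points of an affine lattice in a box are closed under exchange with the directions of a set
which contains, for each nonzero vector `z` of the lattice, a nonzero vector of the lattice between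
`0` and `z` (for instance a Graver basis). -/
theorem exchange_of_graver {n : ℕ} (L : AddSubgroup (Fin n → ℤ)) (G : Set (Fin n → ℤ))
    (hG : ∀ z ∈ L, z ≠ 0 → ∃ g ∈ G, g ∈ L ∧ g ≠ 0 ∧
      ∀ i, (0 ≤ g i ∧ g i ≤ z i) ∨ (z i ≤ g i ∧ g i ≤ 0))
    (c : Fin n →₀ ℕ) (lo hi : Fin n → ℕ) :
    Exchange G {b : Fin n →₀ ℕ | dif b c ∈ L ∧ ∀ i, lo i ≤ b i ∧ b i ≤ hi i} := by
  classical
  intro p hp q hq hpq
  obtain ⟨hpL, hpb⟩ := hp
  obtain ⟨hqL, hqb⟩ := hq
  have hz : dif q p ∈ L := by
    have h : dif q p = dif q c - dif p c := by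
      funext i
      simp only [dif, Pi.sub_apply]
      ring
    rw [h]
    exact L.sub_mem hqL hpL
  have hz0 : dif q p ≠ 0 := by
    intro h0
    apply hpq
    ext i
    have := congrFun h0 i
    simp only [dif, Pi.zero_apply] at this
    omega
  obtain ⟨g, hgG, hgL, hg0, hg⟩ := hG _ hz hz0
  have hg' : ∀ i, (0 ≤ g i ∧ g i ≤ (q i : ℤ) - p i) ∨ ((q i : ℤ) - p i ≤ g i ∧ g i ≤ 0) := hg
  set r : Fin n →₀ ℕ := Finsupp.equivFunOnFinite.symm fun i => ((p i : ℤ) + g i).toNat with hr
  set r' : Fin n →₀ ℕ := Finsupp.equivFunOnFinite.symm fun i => ((q i : ℤ) - g i).toNat with hr'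
  have e1 : ∀ i, (r i : ℤ) = p i + g i := by
    intro i
    rw [hr, Finsupp.equivFunOnFinite_symm_apply_apply]
    rw [Int.toNat_of_nonneg]
    rcases hg' i with h | h <;> omega
  have e2 : ∀ i, (r' i : ℤ) = q i - g i := by
    intro i
    rw [hr', Finsupp.equivFunOnFinite_symm_apply_apply]
    rw [Int.toNat_of_nonneg]
    rcases hg' i with h | h <;> omega
  refine ⟨r, ⟨?_, ?_⟩, r', ⟨?_, ?_⟩, ?_, ?_, ?_, ?_⟩
  · have h : dif r c = dif p c + g := by
      funext i
      simp only [dif, Pi.add_apply]
      rw [e1 i]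
      ring
    rw [h]
    exact L.add_mem hpL hgL
  · intro i
    have := e1 i
    have := hpb i
    have := hqb i
    rcases hg' i with h | h <;> omega
  · have h : dif r' c = dif q c - g := by
      funext i
      simp only [dif, Pi.sub_apply]
      rw [e2 i]
      ring
    rw [h]
    exact L.sub_mem hqL hgL
  · intro i
    have := e2 i
    have := hpb i
    have := hqb i
    rcases hg' i with h | h <;> omega
  · ext i
    rw [Finsupp.add_apply, Finsupp.add_apply]
    have := e1 i
    have := e2 i
    omega
  · intro h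
    apply hg0
    funext i
    have := e1 i
    rw [h] at this
    simp only [Pi.zero_apply]
    omega
  · have h : dif r p = g := by
      funext i
      simp only [dif]
      rw [e1 i]
      ring
    rw [h]
    exact hgG
  · unfold dist1
    apply Finset.sum_lt_sum
    · intro i _
      rw [e2 i]
      rcases hg' i with h | h <;> omega
    · obtain ⟨i, hi⟩ := Function.ne_iff.1 hg0
      rw [Pi.zero_apply] at hi
      refine ⟨i, mem_univ i, ?_⟩
      rw [e2 i]
      rcases hg' i with h | h <;> omega

end Pool.Agent.TH585.SP
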