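import Mathlib
import Pool.Agent.TH585.SP.Core

/-!
The substitution `x_i = t ^ w_i u ^ w'_i` and explicit points.
-/

set_option autoImplicit false

namespace Pool.Agent.TH585.SP

open Finset MvPolynomial

section

variable {R : Type*} [CommRing R] {n : ℕ}

/-- The substitution `x_i = t ^ w_i u ^ w'_i`. -/
noncomputable def sub (w w' : Fin n → ℕ) :
    MvPolynomial (Fin n) R →+* Polynomial (Polynomial R) :=
  eval₂Hom (Polynomial.C.comp Polynomial.C)
    (fun i => Polynomial.C (Polynomial.X ^ w' i) * Polynomial.X ^ w i)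

/-- The weight of an exponent vector. -/
def wn (w : Fin n → ℕ) (b : Fin n →₀ ℕ) : ℕ := ∑ i, w i * b i

theorem sub_eq (w w' : Fin n → ℕ) (f : MvPolynomial (Fin n) R) :
    sub w w' f = ∑ b ∈ f.support,
      Polynomial.C (Polynomial.C (coeff b f) * Polynomial.X ^ wn w' b) *
        Polynomial.X ^ wn w b := by
  unfold sub
  rw [coe_eval₂Hom, eval₂_eq']
  refine Finset.sum_congr rfl fun b _ => ?_
  have h : ∏ i, (Polynomial.C (Polynomial.X ^ w' i) * Polynomial.X ^ w i :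
      Polynomial (Polynomial R)) ^ b i =
      Polynomial.C (Polynomial.X ^ wn w' b) * Polynomial.X ^ wn w b := by
    simp only [mul_pow, Finset.prod_mul_distrib, ← map_pow, ← pow_mul, ← map_prod,
      Finset.prod_pow_eq_pow_sum, wn]
  rw [h, map_mul, mul_assoc, RingHom.comp_apply]

theorem coeff_sub (w w' : Fin n → ℕ) (f : MvPolynomial (Fin n) R) (α β : ℕ) :
    ((sub w w' f).coeff α).coeff β =
      ∑ b ∈ f.support.filter (fun b => wn w b = α ∧ wn w' b = β), coeff b f := by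
  rw [sub_eq, Polynomial.finsetSum_coeff, Polynomial.finsetSum_coeff, Finset.sum_filter]
  refine Finset.sum_congr rfl fun b _ => ?_
  rw [Polynomial.coeff_C_mul_X_pow]
  by_cases h1 : wn w b = α
  · rw [if_pos h1.symm, Polynomial.coeff_C_mul_X_pow]
    by_cases h2 : wn w' b = β
    · rw [if_pos h2.symm, if_pos ⟨h1, h2⟩]
    · rw [if_neg (Ne.symm h2), if_neg (fun h => h2 h.2)]
  · rw [if_neg (Ne.symm h1), if_neg (fun h => h1 h.1), Polynomial.coeff_zero]

theorem sub_ne_zero (w w' : Fin n → ℕ) (f : MvPolynomial (Fin n) R) (b : Fin n →₀ ℕ)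
    (hb : b ∈ f.support)
    (h : ∀ b' ∈ f.support, wn w b' = wn w b → wn w' b' = wn w' b → b' = b) :
    sub w w' f ≠ 0 := by
  intro h0
  have h1 := coeff_sub w w' f (wn w b) (wn w' b)
  have h2 : f.support.filter (fun b' => wn w b' = wn w b ∧ wn w' b' = wn w' b) = {b} := by
    ext b'
    rw [Finset.mem_filter, Finset.mem_singleton]
    constructor
    · rintro ⟨h1, h2, h3⟩
      exact h b' h1 h2 h3
    · rintro rfl
      exact ⟨hb, rfl, rfl⟩
  rw [h0, Polynomial.coeff_zero, Polynomial.coeff_zero, h2, Finset.sum_singleton] at h1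
  exact mem_support_iff.1 hb h1.symm

theorem wn_le {w : Fin n → ℕ} {P : ℕ} (hw : ∀ i, w i ≤ P) {f : MvPolynomial (Fin n) R} {d : ℕ}
    (hf : f.totalDegree ≤ d) {b : Fin n →₀ ℕ} (hb : b ∈ f.support) : wn w b ≤ P * d := by
  unfold wn
  calc ∑ i, w i * b i ≤ ∑ i, P * b i := Finset.sum_le_sum fun i _ => Nat.mul_le_mul_right _ (hw i)
    _ = P * ∑ i, b i := by rw [Finset.mul_sum]
    _ ≤ P * d := by
      refine Nat.mul_le_mul_left _ (le_trans ?_ hf)
      have := le_totalDegree hb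
      rwa [Finsupp.sum_fintype _ _ (fun _ => rfl)] at this

theorem natDegree_sub {w w' : Fin n → ℕ} {P : ℕ} (hw : ∀ i, w i ≤ P)
    {f : MvPolynomial (Fin n) R} {d : ℕ} (hf : f.totalDegree ≤ d) :
    (sub w w' f).natDegree ≤ P * d := by
  rw [sub_eq]
  apply Polynomial.natDegree_sum_le_of_forall_le
  intro b hb
  exact (Polynomial.natDegree_C_mul_X_pow_le _ _).trans (wn_le hw hf hb)

theorem natDegree_coeff_sub {w w' : Fin n → ℕ} {P : ℕ} (hw : ∀ i, w' i ≤ P)
    {f : MvPolynomial (Fin n) R} {d : ℕ} (hf : f.totalDegree ≤ d) (k : ℕ) :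
    ((sub w w' f).coeff k).natDegree ≤ P * d := by
  rw [sub_eq, Polynomial.finsetSum_coeff]
  apply Polynomial.natDegree_sum_le_of_forall_le
  intro b hb
  rw [Polynomial.coeff_C_mul_X_pow]
  split_ifs
  · exact (Polynomial.natDegree_C_mul_X_pow_le _ _).trans (wn_le hw hf hb)
  · rw [Polynomial.natDegree_zero]
    exact Nat.zero_le _

theorem eval_sub (w w' : Fin n → ℕ) (f : MvPolynomial (Fin n) R) (a b : R) :
    ((sub w w' f).map (Polynomial.evalRingHom b)).eval a =
      eval (fun i => a ^ w i * b ^ w' i) f := by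
  have h : ((Polynomial.evalRingHom a).comp (Polynomial.mapRingHom (Polynomial.evalRingHom b))).comp
      (sub w w') = (eval (fun i => a ^ w i * b ^ w' i) : MvPolynomial (Fin n) R →+* R) := by
    apply MvPolynomial.ringHom_ext
    · intro r
      simp [sub]
    · intro i
      simp [sub, mul_comm]
  rw [← h]
  rfl

theorem exists_grid [IsDomain R] [CharZero R] {F : Polynomial (Polynomial R)} (hF : F ≠ 0)
    {D D' : ℕ} (h1 : F.natDegree ≤ D) (h2 : ∀ k, (F.coeff k).natDegree ≤ D') :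
    ∃ a ∈ Finset.Icc 1 (D + 1), ∃ b ∈ Finset.Icc 1 (D' + 1),
      (F.map (Polynomial.evalRingHom (b : R))).eval (a : R) ≠ 0 := by
  classical
  have key : ∀ (G : Polynomial R), G ≠ 0 → ∀ E : ℕ, G.natDegree ≤ E →
      ∃ a ∈ Finset.Icc 1 (E + 1), G.eval (a : R) ≠ 0 := by
    intro G hG E hE
    by_contra hcon
    push Not at hcon
    apply hG
    apply Polynomial.eq_zero_of_natDegree_lt_card_of_eval_eq_zero' G
      ((Finset.Icc 1 (E + 1)).image (fun a : ℕ => (a : R)))
    · intro x hx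
      rw [Finset.mem_image] at hx
      obtain ⟨a, ha, rfl⟩ := hx
      exact hcon a ha
    · rw [Finset.card_image_of_injective _ Nat.cast_injective, Nat.card_Icc]
      omega
  obtain ⟨k, hk⟩ : ∃ k, F.coeff k ≠ 0 := by
    by_contra hcon
    push Not at hcon
    exact hF (Polynomial.ext fun k => by rw [hcon k, Polynomial.coeff_zero])
  obtain ⟨b, hb, hb'⟩ := key (F.coeff k) hk D' (h2 k)
  have hG : F.map (Polynomial.evalRingHom (b : R)) ≠ 0 := by
    intro h0
    apply hb'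
    have := congrArg (fun p => Polynomial.coeff p k) h0
    simpa [Polynomial.coeff_map] using this
  obtain ⟨a, ha, ha'⟩ := key _ hG D (Polynomial.natDegree_map_le.trans h1)
  exact ⟨a, ha, b, hb, ha'⟩

end

/-- The explicit points `x_i = a ^ (k ^ i mod p) b ^ (l ^ i mod p')` with `k < p`, `l < p'`,
`1 ≤ a ≤ p d + 1`, `1 ≤ b ≤ p' d + 1`. -/
def points (n d p p' : ℕ) : Finset (Fin n → ℕ) :=
  ((range p ×ˢ range p') ×ˢ (Icc 1 (p * d + 1) ×ˢ Icc 1 (p' * d + 1))).image
    fun s i => s.2.1 ^ (s.1.1 ^ (i : ℕ) % p) * s.2.2 ^ (s.1.2 ^ (i : ℕ) % p')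

theorem card_points (n d p p' : ℕ) :
    (points n d p p').card ≤ p * p' * ((p * d + 1) * (p' * d + 1)) := by
  unfold points
  refine Finset.card_image_le.trans ?_
  simp [Finset.card_product]

/-- The support of `f` differs in at most `s` monomials from a union of `r` sets which are closed
under exchange with the same at most `N` directions; the exponents are at most `e`. -/
def Close {R : Type*} [CommRing R] {n : ℕ} (N r s e : ℕ) (f : MvPolynomial (Fin n) R) : Prop :=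
  ∃ (D : Finset (Fin n → ℤ)) (A : Fin r → Set (Fin n →₀ ℕ)) (S : Finset (Fin n →₀ ℕ)),
    D.card ≤ N ∧ S.card ≤ s ∧ (∀ c, Exchange (D : Set (Fin n → ℤ)) (A c)) ∧
    (∀ c, ∀ a ∈ A c, ∀ i, a i ≤ e) ∧ (∀ a ∈ f.support, ∀ i, a i ≤ e) ∧
    ∀ b, b ∉ S → (b ∈ f.support ↔ ∃ c, b ∈ A c)

theorem hit {R : Type*} [CommRing R] [IsDomain R] [CharZero R] {n : ℕ} {ι : Type*}
    (J : Finset ι) (f : ι → MvPolynomial (Fin n) R) (N r s e d p p' : ℕ)
    (hf0 : ∀ j ∈ J, f j ≠ 0) (hf : ∀ j ∈ J, Close N r s e (f j))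
    (hp : p.Prime) (hp' : p'.Prime) (hep : e < p) (hep' : e < p')
    (hNp : n * (J.card * N) < p)
    (hNp' : n * (J.card * ((N + 1) * s + r) ^ 2) < p')
    (F : MvPolynomial (Fin n) R) (hF : F ∣ ∏ j ∈ J, f j) (hFd : F.totalDegree ≤ d) :
    ∃ x ∈ points n d p p', eval (fun i => (x i : R)) F ≠ 0 := by
  classical
  have hf' : ∀ j, ∃ (D : Finset (Fin n → ℤ)) (A : Fin r → Set (Fin n →₀ ℕ))
      (S : Finset (Fin n →₀ ℕ)), j ∈ J → D.card ≤ N ∧ S.card ≤ s ∧
      (∀ c, Exchange (D : Set (Fin n → ℤ)) (A c)) ∧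
      (∀ c, ∀ a ∈ A c, ∀ i, a i ≤ e) ∧ (∀ a ∈ (f j).support, ∀ i, a i ≤ e) ∧
      ∀ b, b ∉ S → (b ∈ (f j).support ↔ ∃ c, b ∈ A c) := by
    intro j
    by_cases hj : j ∈ J
    · obtain ⟨D, A, S, h⟩ := hf j hj
      exact ⟨D, A, S, fun _ => h⟩
    · exact ⟨∅, fun _ => ∅, ∅, fun h => absurd h hj⟩
  choose D A S hall using hf'
  have hDc : ∀ j ∈ J, (D j).card ≤ N := fun j hj => (hall j hj).1
  have hs : ∀ j ∈ J, (S j).card ≤ s := fun j hj => (hall j hj).2.1
  have hex : ∀ j ∈ J, ∀ c, Exchange (D j : Set (Fin n → ℤ)) (A j c) :=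
    fun j hj => (hall j hj).2.2.1
  have hge : ∀ j ∈ J, ∀ c, ∀ a ∈ A j c, ∀ i, a i ≤ e := fun j hj => (hall j hj).2.2.2.1
  have hfe : ∀ j ∈ J, ∀ b ∈ (f j).support, ∀ i, b i ≤ e := fun j hj => (hall j hj).2.2.2.2.1
  have hsupp : ∀ j ∈ J, ∀ b, b ∉ S j → (b ∈ (f j).support ↔ ∃ c, b ∈ A j c) :=
    fun j hj => (hall j hj).2.2.2.2.2
  -- first weight
  set V : Finset (Fin n → ℤ) :=
    J.biUnion fun j => (D j).filter fun v => v ≠ 0 ∧ ∀ i, |v i| ≤ e with hV
  have hVc : V.card ≤ J.card * N := by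
    rw [hV]
    refine Finset.card_biUnion_le.trans ?_
    refine (Finset.sum_le_card_nsmul _ _ N fun j hj => ?_).trans_eq (by rw [smul_eq_mul])
    exact (Finset.card_filter_le _ _).trans (hDc j hj)
  obtain ⟨k, hk, hkV⟩ := exists_weight (n := n) hp V (by
    intro v hv
    rw [hV, Finset.mem_biUnion] at hv
    obtain ⟨j, _, hv⟩ := hv
    rw [Finset.mem_filter] at hv
    obtain ⟨_, hv0, hve⟩ := hv
    obtain ⟨i, hi⟩ := Function.ne_iff.1 hv0
    refine ⟨i, fun hdvd => hi ?_⟩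
    exact Int.eq_zero_of_abs_lt_dvd hdvd (lt_of_le_of_lt (hve i) (by exact_mod_cast hep)))
    (lt_of_le_of_lt (Nat.mul_le_mul_left _ hVc) hNp)
  set w : Fin n → ℕ := fun i => k ^ (i : ℕ) % p with hw
  have hgen : ∀ j ∈ J, Gen e (D j) (fun i => (w i : ℤ)) := by
    intro j hj v hv hv0 hve
    apply hkV v
    rw [hV, Finset.mem_biUnion]
    exact ⟨j, hj, Finset.mem_filter.2 ⟨hv, hv0, hve⟩⟩
  -- the minima
  set M : ι → Finset (Fin n →₀ ℕ) := fun j => mins (fun i => (w i : ℤ)) (f j).support with hM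
  have hMc : ∀ j ∈ J, (M j).card ≤ (N + 1) * s + r := by
    intro j hj
    have h1 := few_mins (hex j hj) (hge j hj) (hgen j hj) (f j).support (S j) (hsupp j hj)
    refine h1.trans (Nat.add_le_add_right ?_ r)
    exact Nat.mul_le_mul (Nat.add_le_add_right (hDc j hj) 1) (hs j hj)
  -- second weight
  set V' : Finset (Fin n → ℤ) :=
    J.biUnion fun j => ((M j ×ˢ M j).filter fun q => q.1 ≠ q.2).image fun q => dif q.1 q.2 with hV'
  have hVc' : V'.card ≤ J.card * ((N + 1) * s + r) ^ 2 := by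
    rw [hV']
    refine Finset.card_biUnion_le.trans ?_
    refine (Finset.sum_le_card_nsmul _ _ (((N + 1) * s + r) ^ 2) fun j hj => ?_).trans_eq
      (by rw [smul_eq_mul])
    refine Finset.card_image_le.trans ((Finset.card_filter_le _ _).trans ?_)
    rw [Finset.card_product, sq]
    exact Nat.mul_le_mul (hMc j hj) (hMc j hj)
  obtain ⟨l, hl, hlV⟩ := exists_weight (n := n) hp' V' (by
    intro v hv
    rw [hV', Finset.mem_biUnion] at hv
    obtain ⟨j, hj, hv⟩ := hv
    rw [Finset.mem_image] at hv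
    obtain ⟨q, hq, rfl⟩ := hv
    rw [Finset.mem_filter, Finset.mem_product] at hq
    obtain ⟨⟨h1, h2⟩, h3⟩ := hq
    have h1' := hfe j hj q.1 (Finset.mem_filter.1 h1).1
    have h2' := hfe j hj q.2 (Finset.mem_filter.1 h2).1
    obtain ⟨i, hi⟩ := DFunLike.ne_iff.1 h3
    refine ⟨i, fun hdvd => hi ?_⟩
    have h4 := Int.eq_zero_of_abs_lt_dvd hdvd (by
      unfold dif
      have h5 := h1' i
      have h6 := h2' i
      rw [abs_lt]
      constructor <;> omega)
    unfold dif at h4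
    omega)
    (lt_of_le_of_lt (Nat.mul_le_mul_left _ hVc') hNp')
  set w' : Fin n → ℕ := fun i => l ^ (i : ℕ) % p' with hw'
  -- the substitution
  have hcast : ∀ (u : Fin n → ℕ) (b : Fin n →₀ ℕ), ((wn u b : ℕ) : ℤ) = wt (fun i => (u i : ℤ)) b := by
    intro u b
    unfold wn wt
    push_cast
    rfl
  have hsub : ∀ j ∈ J, sub w w' (f j) ≠ 0 := by
    intro j hj
    obtain ⟨b, hb⟩ := mins_nonempty (fun i => (w i : ℤ))
      (B := (f j).support) (Finset.nonempty_iff_ne_empty.2 (fun h0 => hf0 j hj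
        (by rwa [support_eq_empty] at h0)))
    have hb' := Finset.mem_filter.1 hb
    refine sub_ne_zero w w' (f j) b hb'.1 ?_
    intro b2 hb2 h1 h2
    by_contra hne
    have h1' : wt (fun i => (w i : ℤ)) b2 = wt (fun i => (w i : ℤ)) b := by
      rw [← hcast, ← hcast, h1]
    have h2' : wt (fun i => (w' i : ℤ)) b2 = wt (fun i => (w' i : ℤ)) b := by
      rw [← hcast, ← hcast, h2]
    have hb2M : b2 ∈ M j := by
      rw [hM]
      refine Finset.mem_filter.2 ⟨hb2, fun b3 hb3 => ?_⟩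
      rw [h1']
      exact hb'.2 b3 hb3
    apply hlV (dif b2 b)
    · rw [hV', Finset.mem_biUnion]
      refine ⟨j, hj, Finset.mem_image.2 ⟨(b2, b), Finset.mem_filter.2 ⟨?_, hne⟩, rfl⟩⟩
      exact Finset.mem_product.2 ⟨hb2M, hb⟩
    · rw [wt_dif, h2', sub_self]
  have hprod : sub w w' (∏ j ∈ J, f j) ≠ 0 := by
    rw [map_prod]
    exact Finset.prod_ne_zero_iff.2 hsub
  have hFs : sub w w' F ≠ 0 := by
    intro h0
    apply hprod
    obtain ⟨G, hG⟩ := hF
    rw [hG, map_mul, h0, zero_mul]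
  obtain ⟨a, ha, b, hb, hab⟩ := exists_grid hFs
    (natDegree_sub (P := p) (fun i => (Nat.mod_lt _ hp.pos).le) hFd)
    (natDegree_coeff_sub (P := p') (fun i => (Nat.mod_lt _ hp'.pos).le) hFd)
  rw [eval_sub] at hab
  refine ⟨fun i => a ^ w i * b ^ w' i, ?_, ?_⟩
  · unfold points
    rw [Finset.mem_image]
    exact ⟨((k, l), (a, b)), by
      simp only [Finset.mem_product, Finset.mem_range]
      exact ⟨⟨hk, hl⟩, ha, hb⟩, rfl⟩
  · have : (fun i => ((a ^ w i * b ^ w' i : ℕ) : R)) = fun i => (a : R) ^ w i * (b : R) ^ w' i := by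
      funext i
      push_cast
      rfl
    rw [this]
    exact hab

end Pool.Agent.TH585.SP
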